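import Pool.Agent.Helper158.Final

/-!
Almost no second homology class of the graph manifold group `GM` comes from a `PD_2`-subgroup.
-/

set_option autoImplicit false

namespace Pool.Agent.Y664.NR

open Finsupp CategoryTheory groupHomology Pool.Agent.Helper158

section

variable (H : Subgroup GM)

attribute [local instance] modS

/-- The key contradiction, for all pairs of nonzero numbers. -/
theorem no_cycle' (hFP : FP H)
    (hv : ∀ i, 3 ≤ i → Subsingleton (groupCohomology (Rep.leftRegular ℤ H) i))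
    (h2 : Nonempty (groupCohomology (Rep.leftRegular ℤ H) 2 ≃+ ℤ))
    (l : L2) (hl : B2 l ∈ JJ H L1) (m1 m3 : ℤ) (hA : A13 l = (m1, m3)) (hm1 : m1 ≠ 0)
    (hm3 : m3 ≠ 0) : False := by
  obtain ⟨lam, hlam⟩ := rank_L H hFP hv h2
  have hu : bd2 (permRep GM (XH H)) gA gB gZ gC gD gW (q6 H l) = 0 := by
    rw [← q7_B2]
    exact q7_JJ H hl
  obtain ⟨N, m, xa, xb, xc, xd, hN, hc1, -, hs⟩ := split gA gB gZ gC gD gW rels (q6 H l) hu
  obtain ⟨ya, rfl⟩ := qH_surj H xa
  obtain ⟨yb, rfl⟩ := qH_surj H xb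
  have hA1 : aug l.1 = m1 := congrArg Prod.fst hA
  have s1 : (N : ℤ) • qH H l.1 = Wa (permRep GM (XH H)) gA gB gZ m + qH H ya + 0 :=
    congrArg Prod.fst hs
  have e1 : (N : ℤ) * m1 = aug ya := by
    have := congrArg (augX H) s1
    rw [map_zsmul, augX_qH, hA1, map_add, map_add, augX_Wa, augX_qH, map_zero, zero_add,
      add_zero, smul_eq_mul] at this
    exact this
  obtain ⟨x1, hx1⟩ : ∃ x : L2, x = (ya, yb, 0, 0, 0, 0) := ⟨_, rfl⟩
  have hx1q : q6 H x1 = (qH H ya, qH H yb, 0, 0, 0, 0) := by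
    rw [hx1]
    simp only [q6, map_zero]
  have hx1J : B2 x1 ∈ JJ H L1 := by
    apply q7_ker
    rw [q7_B2, hx1q]
    exact hc1
  have key : ∀ t : L2, B2 t ∈ JJ H L1 → lam t = 0 → A13 t = 0 := by
    intro t ht h0
    obtain ⟨v, hv, hv2⟩ := hlam t ht h0
    rw [← A13_eq hv2]
    exact A13_JJ H hv
  have k1 := key (lam x1 • l - lam l • x1) (by
    rw [map_sub, map_zsmul, map_zsmul]
    exact sub_mem (zsmul_mem hl _) (zsmul_mem hx1J _)) (by
    rw [map_sub, map_zsmul, map_zsmul, smul_eq_mul, smul_eq_mul, mul_comm, sub_self])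
  rw [map_sub, map_zsmul, map_zsmul, hA] at k1
  have hAx : A13 x1 = (aug ya, 0) := by
    rw [hx1]
    change (aug ya, aug 0) = _
    rw [map_zero]
  rw [hAx] at k1
  have k2 : lam x1 = 0 := by
    have := congrArg Prod.snd k1
    simp only [Prod.snd_sub, Prod.smul_snd, Prod.snd_zero, smul_eq_mul] at this
    rw [mul_zero, sub_zero, mul_eq_zero] at this
    exact this.resolve_right hm3
  have k3 := key x1 hx1J k2
  rw [hAx, ← e1] at k3
  have k4 := congrArg Prod.fst k3
  simp only [Prod.fst_zero, mul_eq_zero, Nat.cast_eq_zero] at k4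
  rcases k4 with k4 | k4
  · omega
  · exact hm1 k4

end

theorem wd {y y' : cycles₂ (Rep.trivial ℤ GM ℤ)}
    (h : H2π (Rep.trivial ℤ GM ℤ) y = H2π (Rep.trivial ℤ GM ℤ) y') :
    A13 (Tht y.1) = A13 (Tht y'.1) := by
  have h1 := (H2π_eq_iff y y').1 h
  have h2 := A13_BB (bound_BB h1)
  have h3 : y.1 = (y.1 - y'.1) + y'.1 := (sub_add_cancel _ _).symm
  rw [h3, map_add, map_add]
  have h4 : A13 (Tht (y.1 - y'.1)) = 0 := h2
  rw [h4, zero_add]

theorem H2_surj (x : groupHomology (Rep.trivial ℤ GM ℤ) 2) :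
    ∃ y : cycles₂ (Rep.trivial ℤ GM ℤ), H2π (Rep.trivial ℤ GM ℤ) y = x := by
  induction x using H2_induction_on with
  | h y => exact ⟨y, rfl⟩

/-- The homomorphism `H_2(G; ℤ) → ℤ²`. -/
noncomputable def th : groupHomology (Rep.trivial ℤ GM ℤ) 2 →+ ℤ × ℤ :=
  AddMonoidHom.mk' (fun x => A13 (Tht (H2_surj x).choose.1)) (by
    intro a b
    have ha := (H2_surj a).choose_spec
    have hb := (H2_surj b).choose_spec
    have hab := (H2_surj (a + b)).choose_spec
    have h1 : H2π (Rep.trivial ℤ GM ℤ) ((H2_surj a).choose + (H2_surj b).choose) = a + b := by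
      rw [map_add, ha, hb]
    have h2 := wd (hab.trans h1.symm)
    rw [h2]
    have h3 : ((H2_surj a).choose + (H2_surj b).choose).1 =
      (H2_surj a).choose.1 + (H2_surj b).choose.1 := rfl
    rw [h3, map_add, map_add])

theorem th_pi (y : cycles₂ (Rep.trivial ℤ GM ℤ)) :
    th (H2π (Rep.trivial ℤ GM ℤ) y) = A13 (Tht y.1) :=
  wd (H2_surj _).choose_spec

/-- cycle of the first torus -/
noncomputable def y1 : GM × GM →₀ ℤ := single (gA, gZ) 1 - single (gZ, gA) 1

/-- cycle of the second torus -/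
noncomputable def y3 : GM × GM →₀ ℤ := single (gC, gW) 1 - single (gW, gC) 1

theorem cyc_y1 : cycK GM y1 = 0 := by
  have e1 : gZ * gA = gA * gZ := rels.za.eq
  simp only [y1, map_sub, cycK_single, one_smul, e1]
  abel

theorem cyc_y3 : cycK GM y3 = 0 := by
  have e2 : gW * gC = gC * gW := rels.wc.eq
  simp only [y3, map_sub, cycK_single, one_smul, e2]
  abel

theorem A13_y1 : A13 (Tht y1) = (1, 0) := by
  have h0 : Tht y1 = (tht (gA, gZ) - tht (gZ, gA)) := by
    simp only [y1, map_sub, Tht_single, one_smul]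
  have h1 := comm_fill gA gZ rels.za.symm (-MonoidAlgebra.of ℤ GM gA, 0, 0, 0, 0, 0, 0)
    (0, 0, -MonoidAlgebra.of ℤ GM gZ, 0, 0, 0, 0)
    (by
      simp only [B1, bd1, LinearMap.coe_mk, AddHom.coe_mk, sub_one_apply, map_zero, map_neg,
        of_mul_inv, mul_inv_cancel, sub_zero, add_zero, map_one]
      ext1
      · simp only
        abel
      · rfl)
    (by
      simp only [B1, bd1, LinearMap.coe_mk, AddHom.coe_mk, sub_one_apply, map_zero, map_neg,
        of_mul_inv, mul_inv_cancel, sub_zero, add_zero, map_one]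
      ext1
      · simp only
        abel
      · rfl)
    (MonoidAlgebra.of ℤ GM (gA * gZ), 0, 0, 0, 0, 0) fill1
  rw [h0, h1]
  change (aug _, aug 0) = _
  rw [aug_of, map_zero]

theorem A13_y3 : A13 (Tht y3) = (0, -1) := by
  have h1 : yc = y1 + y3 := rfl
  have h2 := A13_yc
  rw [h1, map_add, map_add, A13_y1] at h2
  have h3 : A13 (Tht y3) = (1, -1) - (1, 0) := by rw [← h2]; abel
  rw [h3]
  rfl

theorem th_surj : Function.Surjective th := by
  rintro ⟨m, n⟩
  refine ⟨m • H2π (Rep.trivial ℤ GM ℤ) ⟨y1, (mem_cycles2 y1).2 cyc_y1⟩ -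
    n • H2π (Rep.trivial ℤ GM ℤ) ⟨y3, (mem_cycles2 y3).2 cyc_y3⟩, ?_⟩
  rw [map_sub, map_zsmul, map_zsmul, th_pi, th_pi, A13_y1, A13_y3]
  ext <;> simp

/-- The classes which come from `PD_2`-subgroups lie in the union of two subgroups. -/
theorem th_map (H : Subgroup GM) (hFP : FP H)
    (hv : ∀ i, i ≠ 2 → Subsingleton (groupCohomology (Rep.leftRegular ℤ H) i))
    (h2 : Nonempty (groupCohomology (Rep.leftRegular ℤ H) 2 ≃+ ℤ))
    (x : groupHomology (Rep.trivial ℤ H ℤ) 2) :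
    (th (groupHomology.map H.subtype (𝟙 (Rep.trivial ℤ H ℤ)) 2 x)).1 = 0 ∨
      (th (groupHomology.map H.subtype (𝟙 (Rep.trivial ℤ H ℤ)) 2 x)).2 = 0 := by
  by_contra hcon
  push Not at hcon
  obtain ⟨c1, c3⟩ := hcon
  induction x using H2_induction_on with
  | h y =>
    have h1 := H2π_comp_map_apply (A := Rep.trivial ℤ H ℤ) (B := Rep.trivial ℤ GM ℤ) H.subtype
      (𝟙 (Rep.trivial ℤ H ℤ)) y
    rw [h1, th_pi] at c1 c3
    have h4 : (mapCycles₂ (A := Rep.trivial ℤ H ℤ) (B := Rep.trivial ℤ GM ℤ) H.subtype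
      (𝟙 (Rep.trivial ℤ H ℤ)) y).1 = incH H y.1 := by
      change Finsupp.mapRange _ (map_zero _) (Finsupp.mapDomain (Prod.map H.subtype H.subtype) y.1) =
        Finsupp.mapDomain (Prod.map H.subtype H.subtype) y.1
      refine Finsupp.ext fun p => ?_
      rw [Finsupp.mapRange_apply]
      rfl
    rw [h4] at c1 c3
    exact no_cycle' H hFP (fun i hi => hv i (by omega)) h2 _
      (bd_incH H y.1 ((mem_cycles2 _).1 y.2)) _ _ rfl c1 c3

end Pool.Agent.Y664.NR
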